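import Pool.Agent.Helper81.T5.FPI

set_option autoImplicit false

/-!
Invariance of the gauge fixing function.
-/

open Finset MeasureTheory Filter Topology

namespace Pool.Agent.Helper8.T5

open Pool.Agent.Helper15.T4 Pool.Agent.Helper46.T5 Pool.Agent.Helper81.T5

theorem so3_tr {A : M3} (h : SO3 A) : SO3 A.transpose := by
  refine ⟨?_, ?_⟩
  · rw [Matrix.transpose_transpose]
    exact mul_eq_one_comm.mp h.1
  · rw [Matrix.det_transpose]
    exact h.2

theorem act_smul' {J : Type} [Fintype J] [DecidableEq J] (A : J → M3) (s : ℝ) (x : (J → Fin 3) → ℝ) :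
    act A (fun a => s * x a) = fun a => s * act A x a := by
  funext a
  unfold act
  rw [Finset.mul_sum]
  exact Finset.sum_congr rfl (fun b _ => by ring)

theorem cont_ww (K N : ℕ) (s : ℤˣ) (π : Equiv.Perm (Fin K × Fin 2))
    (x : (Fin K × Fin 2 → Fin 3) → ℝ) : Continuous (fun O => ww K N s π x O) := by
  unfold ww nsq pt
  refine Real.continuous_exp.comp (continuous_const.mul ?_)
  refine continuous_finsetSum _ (fun a _ => ?_)
  refine (continuous_const.sub (continuous_const.mul ?_)).pow 2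
  refine continuous_finsetProd _ (fun p _ => ?_)
  refine Continuous.div_const ?_ _
  exact ((continuous_apply _).comp ((continuous_apply _).comp (continuous_apply p)))

theorem nsq_key (hM : ST_ACTM) {K : ℕ} (A : Fin K × Fin 2 → M3) (hA : ∀ j, SO3 (A j)) (s : ℤˣ)
    (π : Equiv.Perm (Fin K × Fin 2)) (x : (Fin K × Fin 2 → Fin 3) → ℝ) (O : Fin K → M3) :
    nsq (fun a => act A x a - ((s : ℤ) : ℝ) * pt π O a) =
      nsq (fun a => x a - ((s : ℤ) : ℝ) *
        pt π (fun p => (A (π (p, 0))).transpose * O p * A (π (p, 1))) a) := by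
  have hT : ∀ j, SO3 ((fun j => (A j).transpose) j) := fun j => so3_tr (hA j)
  rw [← nsq_act hM _ (fun j => (A j).transpose) hT (fun a => act A x a - ((s : ℤ) : ℝ) * pt π O a)]
  congr 1
  rw [act_sub, act_smul']
  have h1 : act (fun j => (A j).transpose) (act A x) = x := by
    rw [(hM.1 ℝ _ _ _ _).1]
    have h3 : (fun j => (A j).transpose * A j) = fun _ => (1 : Matrix (Fin 3) (Fin 3) ℝ) := by
      funext j
      exact mul_eq_one_comm.mp (hA j).1
    rw [h3, (hM.1 ℝ _ A A x).2]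
  have h2 := hM.2.2 K _ (fun j => (A j).transpose) π O
  funext a
  rw [h2]
  have h4 : act (fun j => (A j).transpose) (fun a => act A x a) = x := h1
  rw [h4]
  simp only [Matrix.transpose_transpose]

theorem psi_act (hM : ST_ACTM) (hL : ST_AVLR) (K N : ℕ) (x : (Fin K × Fin 2 → Fin 3) → ℝ)
    (A : Fin K × Fin 2 → M3) (hA : ∀ j, SO3 (A j)) : Psi K N (act A x) = Psi K N x := by
  rw [Psi_eq, Psi_eq]
  refine Finset.sum_congr rfl (fun s _ => Finset.sum_congr rfl (fun π _ => ?_))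
  rw [← hL K (ww K N s π x) (cont_ww K N s π x) (fun p => (A (π (p, 0))).transpose)
    (fun p => A (π (p, 1))) (fun p => so3_tr (hA _)) (fun p => hA _)]
  congr 1
  funext O
  unfold ww
  rw [nsq_key hM A hA s π x O]

theorem pt_perm {K : ℕ} (ρ π : Equiv.Perm (Fin K × Fin 2)) (O : Fin K → M3)
    (a : Fin K × Fin 2 → Fin 3) : pt (π.trans ρ) O a = pt π O (a ∘ ρ) := rfl

theorem psi_perm (K N : ℕ) (x : (Fin K × Fin 2 → Fin 3) → ℝ) (ρ : Equiv.Perm (Fin K × Fin 2)) :
    Psi K N (fun a => x (a ∘ ρ)) = Psi K N x := by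
  rw [Psi_eq, Psi_eq]
  refine Finset.sum_congr rfl (fun s _ => ?_)
  rw [← Equiv.sum_comp (Equiv.mulLeft ρ⁻¹) (fun π => AV K (ww K N s π x))]
  refine Finset.sum_congr rfl (fun π _ => ?_)
  congr 1
  funext O
  unfold ww
  have h : nsq (fun a : Fin K × Fin 2 → Fin 3 => x (a ∘ ρ) - ((s : ℤ) : ℝ) * pt π O a) =
      nsq (fun a => x a - ((s : ℤ) : ℝ) * pt (ρ⁻¹ * π) O a) := by
    rw [← nsq_perm ρ (fun a => x a - ((s : ℤ) : ℝ) * pt (ρ⁻¹ * π) O a)]
    congr 1
    funext a
    congr 2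
    unfold pt
    refine Finset.prod_congr rfl (fun p _ => ?_)
    simp [Equiv.Perm.mul_apply]
  rw [h]
  rfl

theorem psi_neg (K N : ℕ) (x : (Fin K × Fin 2 → Fin 3) → ℝ) :
    Psi K N (fun a => -x a) = Psi K N x := by
  rw [Psi_eq, Psi_eq]
  rw [← Equiv.sum_comp (Equiv.neg ℤˣ) (fun s => ∑ π : Equiv.Perm (Fin K × Fin 2), AV K (ww K N s π x))]
  refine Finset.sum_congr rfl (fun s _ => Finset.sum_congr rfl (fun π _ => ?_))
  congr 1
  funext O
  unfold ww nsq
  congr 2
  refine Finset.sum_congr rfl (fun a _ => ?_)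
  simp only [Equiv.neg_apply, Units.val_neg, Int.cast_neg]
  ring

theorem st_PSINV (hL : ST_AVLR) (hM : ST_ACTM) : ST_PSINV := fun K N x =>
  ⟨fun A hA => psi_act hM hL K N x A hA, fun π => psi_perm K N x π, psi_neg K N x⟩

end Pool.Agent.Helper8.T5
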